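import Pool.Agent.H45R2.MatVar.Gamma
import Pool.Agent.H45R2.MatVar.Grp

/-!
# Failure of the Tits alternative for pro-p groups of matrices of degree at least three

For every prime `p` and every `n ≥ 3` let `R` be the product over `N` of the finite rings
`F_p[ε_1, ..., ε_N]` with `ε_i ^ 2 = 0`, and let `G` be the group of all matrices in `GL_n(R)` which
are congruent to `1` modulo the radical of `R`.  Every element `u` of the radical satisfies
`u ^ p = 0`, so by the Cayley-Hamilton theorem `A ^ (n p) = 0` for every matrix `A` with entries in
the radical, and `G` satisfies the identity `x ^ (p ^ n) = 1`.  As products of arbitrarily many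
elements of the radical are nonzero, commutators of elementary matrices show that `G` is not
soluble.  The group `Γ_p` contains elements of infinite order, so that it does not lie in the variety
generated by `G`.
-/

set_option autoImplicit false

namespace Pool.Agent.Results.MP_c0708e_al.NoTitsAlternative

open Pool.Agent.Helper429.PT Pool.Agent.H45R2.MatVar
open scoped PowerSeries.WithPiTopology

/-- For every prime `p` and every `n ≥ 3` there is a pro-p group of `n × n` matrices which is not
soluble and such that `Γ_p` does not lie in the variety of pro-p groups generated by it. -/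
theorem result (p : ℕ) (hp : p.Prime) (n : ℕ) (hn : 3 ≤ n) :
    ∃ (G : Type) (_ : Group G) (_ : TopologicalSpace G) (_ : IsTopologicalGroup G),
      IsMatrixProP p n G ∧ ¬ Group.IsSolvable G ∧ ¬ InVar p G (GammaP p) := by
  refine ⟨KK hp n, inferInstance, inferInstance, inferInstance, ⟨isProP_KK hp hn, ?_⟩,
    not_solvable hp hn, ?_⟩
  · have := compact_KK hp n
    have h1 : T2Space (Matrix (Fin n) (Fin n) (RR hp)) :=
      inferInstanceAs (T2Space (Fin n → Fin n → RR hp))
    exact ⟨RR hp, inferInstance, inferInstance, inferInstance, inferInstance, inferInstance,
      inferInstance, (KK hp n).subtype, (continuous_val_KK hp n).isClosedEmbedding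
        (injective_val_KK hp n)⟩
  · intro h
    have h1 := h (lawVariety hp {(FreeGroup.of 0) ^ (p ^ n)}) ⟨isProP_KK hp hn, by
      intro w hw φ
      rw [Set.mem_singleton_iff] at hw
      rw [hw, map_pow]
      exact exponent hp hn _⟩
    have h2 := h1.2 _ rfl (FreeGroup.lift fun _ => ⟨upper p * lower p, mem_gamma p⟩)
    rw [map_pow, FreeGroup.lift_apply_of] at h2
    exact gamma_pow hp n (congrArg Subtype.val h2)

end Pool.Agent.Results.MP_c0708e_al.NoTitsAlternative
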